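import Mathlib

set_option autoImplicit false

namespace Pool.Agent.MP_5499e5_ag

open MvPolynomial

variable {K : Type*} [Field K]

/-- semicontinuity: a family of linear conditions with trivial solution space at one point has
trivial solution space off a hypersurface -/
lemma semicont {V S κ : Type*} [AddCommGroup V] [Module K V] [FiniteDimensional K V]
    [CommRing S] [Algebra K S] (Λ : κ → V →ₗ[K] S) (ev0 : S →ₐ[K] K)
    (h : ∀ v, (∀ i, ev0 (Λ i v) = 0) → v = 0) :
    ∃ F : S, ev0 F ≠ 0 ∧ ∀ ev : S →ₐ[K] K, ev F ≠ 0 → ∀ v, (∀ i, ev (Λ i v) = 0) → v = 0 := by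
  classical
  let b := Module.finBasis K V
  let φ : κ → V →ₗ[K] K := fun i => ev0.toLinearMap.comp (Λ i)
  have h1 : ∀ l, b.coord l ∈ Submodule.span K (Set.range φ) := by
    intro l
    apply FiniteDimensional.mem_span_of_iInf_ker_le_ker
    intro v hv
    rw [Submodule.mem_iInf] at hv
    have : v = 0 := h v fun i => hv i
    simp [this]
  choose c hc using fun l => Finsupp.mem_span_range_iff_exists_finsupp.1 (h1 l)
  let Ψ : Fin (Module.finrank K V) → V →ₗ[K] S := fun l => (c l).sum fun i a => a • Λ i
  have hΨ : ∀ (ev : S →ₐ[K] K) l v, ev (Ψ l v) = (c l).sum fun i a => a * ev (Λ i v) := by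
    intro ev l v
    simp only [Ψ, Finsupp.sum, LinearMap.coe_sum, Finset.sum_apply, LinearMap.smul_apply, map_sum,
      map_smul, smul_eq_mul]
  let A : Matrix (Fin (Module.finrank K V)) (Fin (Module.finrank K V)) S :=
    Matrix.of fun l l' => Ψ l (b l')
  have hA0 : ev0.toRingHom.mapMatrix A = 1 := by
    ext l l'
    have h2 := congrArg (fun ψ : V →ₗ[K] K => ψ (b l')) (hc l)
    simp only [Finsupp.sum, LinearMap.coe_sum, Finset.sum_apply, LinearMap.smul_apply,
      smul_eq_mul, φ, LinearMap.comp_apply, AlgHom.toLinearMap_apply, Module.Basis.coord_apply,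
      Module.Basis.repr_self] at h2
    have h3 := hΨ ev0 l (b l')
    simp only [RingHom.mapMatrix_apply, Matrix.map_apply, A, Matrix.of_apply,
      AlgHom.toRingHom_eq_coe, RingHom.coe_coe]
    rw [h3, Finsupp.sum, h2, Finsupp.single_apply, Matrix.one_apply]
    simp [eq_comm]
  refine ⟨A.det, ?_, fun ev hev v hv => ?_⟩
  · have := RingHom.map_det ev0.toRingHom A
    rw [hA0, Matrix.det_one] at this
    have h2 : ev0 A.det = 1 := this
    rw [h2]
    exact one_ne_zero
  · have h2 : (ev.toRingHom.mapMatrix A).det ≠ 0 := by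
      rw [← RingHom.map_det]
      exact hev
    have h3 : (ev.toRingHom.mapMatrix A).mulVec (b.repr v) = 0 := by
      funext l
      have h4 : ev (Ψ l v) = 0 := by
        rw [hΨ]
        simp [hv, Finsupp.sum]
      have h5 : Ψ l v = ∑ l', b.repr v l' • Ψ l (b l') := by
        conv_lhs => rw [← b.sum_repr v]
        simp only [map_sum, map_smul]
      rw [h5, map_sum] at h4
      simp only [Matrix.mulVec, dotProduct, RingHom.mapMatrix_apply, Matrix.map_apply, A,
        Matrix.of_apply, AlgHom.toRingHom_eq_coe, RingHom.coe_coe, Pi.zero_apply]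
      rw [← h4]
      refine Finset.sum_congr rfl fun l' _ => ?_
      rw [map_smul, smul_eq_mul, mul_comm]
    have h4 := Matrix.eq_zero_of_mulVec_eq_zero h2 h3
    apply b.repr.injective
    rw [map_zero]
    ext l
    exact congrFun h4 l

variable {σ : Type*}

/-- translation of polynomials -/
noncomputable def shift (P : σ → K) : MvPolynomial σ K →ₐ[K] MvPolynomial σ K :=
  aeval fun i => X i + C (P i)

lemma shift_shift (P : σ → K) (f : MvPolynomial σ K) : shift (-P) (shift P f) = f := by
  have : (shift (-P)).comp (shift P) = AlgHom.id _ _ := by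
    ext1 j
    simp [shift]
  exact congrArg (fun φ => φ f) this

lemma mem_pow_map {A B : Type*} [CommRing A] [CommRing B] (φ : A →+* B) {I : Ideal A}
    {J : Ideal B} (h : ∀ x ∈ I, φ x ∈ J) {m : ℕ} {f : A} (hf : f ∈ I ^ m) : φ f ∈ J ^ m := by
  have h1 : I.map φ ≤ J := Ideal.map_le_iff_le_comap.2 h
  have h2 : φ f ∈ (I ^ m).map φ := Ideal.mem_map_of_mem _ hf
  rw [Ideal.map_pow] at h2
  exact Ideal.pow_right_mono h1 m h2

lemma mem_ker_pow_iff (P : σ → K) (m : ℕ) (f : MvPolynomial σ K) :
    f ∈ (RingHom.ker (eval P)) ^ m ↔ ∀ α : σ →₀ ℕ, α.degree < m → (shift P f).coeff α = 0 := by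
  rw [← mem_pow_idealOfVars_iff']
  constructor
  · intro hf
    refine mem_pow_map (shift P).toRingHom (fun x hx => ?_) hf
    rw [← pow_one (idealOfVars σ K), mem_pow_idealOfVars_iff']
    intro α hα
    have h0 : α = 0 := by
      rw [← Finsupp.degree_eq_zero_iff]
      omega
    subst h0
    have h1 : constantCoeff.comp (shift P).toRingHom = eval P := by
      apply MvPolynomial.ringHom_ext
      · intro a
        simp [shift]
      · intro i
        simp [shift]
    have h2 : eval P x = 0 := hx
    rw [← h1] at h2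
    exact h2
  · intro hf
    rw [← shift_shift P f]
    refine mem_pow_map (shift (-P)).toRingHom (fun x hx => ?_) hf
    have h1 : idealOfVars σ K ≤ (RingHom.ker (eval P)).comap (shift (-P)).toRingHom := by
      rw [Ideal.span_le]
      rintro _ ⟨i, rfl⟩
      simp [shift, RingHom.mem_ker]
    exact h1 hx

/-- if no form of degree `d` vanishes to order `m` at one configuration of `r` points, the same
holds for a general configuration -/
lemma generic [Finite σ] {r d m : ℕ} (P0 : Fin r → σ → K)
    (h : ∀ f : MvPolynomial σ K, f.IsHomogeneous d →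
      (∀ j, f ∈ (RingHom.ker (eval (P0 j))) ^ m) → f = 0) :
    ∃ F : MvPolynomial (Fin r × σ) K, F ≠ 0 ∧ ∀ P : Fin r → σ → K,
      eval (fun q : Fin r × σ => P q.1 q.2) F ≠ 0 → ∀ f : MvPolynomial σ K, f.IsHomogeneous d →
        (∀ j, f ∈ (RingHom.ker (eval (P j))) ^ m) → f = 0 := by
  let S := MvPolynomial (Fin r × σ) K
  let V := homogeneousSubmodule σ K d
  have : FiniteDimensional K V := Module.Finite.iff_fg.2 (homogeneousSubmodule_fg σ K d)
  let T : Fin r → MvPolynomial σ K →ₐ[K] MvPolynomial σ S :=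
    fun j => aeval fun i => X i + C (X (j, i))
  let Λ : Fin r × {α : σ →₀ ℕ // α.degree < m} → V →ₗ[K] S := fun i =>
    ((lcoeff S i.2.1).restrictScalars K).comp ((T i.1).toLinearMap.comp V.subtype)
  have hT : ∀ (P : Fin r → σ → K) (j : Fin r) (f : MvPolynomial σ K) (α : σ →₀ ℕ),
      aeval (fun q : Fin r × σ => P q.1 q.2) ((T j f).coeff α) = (shift (P j) f).coeff α := by
    intro P j f α
    have h1 : (MvPolynomial.map
        (aeval (fun q : Fin r × σ => P q.1 q.2) : S →ₐ[K] K).toRingHom).comp (T j).toRingHom =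
        (shift (P j)).toRingHom := by
      apply MvPolynomial.ringHom_ext
      · intro a
        simp [shift, T, S]
      · intro i
        simp [shift, T, S]
    have h2 := congrArg (fun φ => (φ f).coeff α) h1
    simp only [RingHom.comp_apply, coeff_map] at h2
    exact h2
  obtain ⟨F, hF0, hF⟩ := semicont Λ (aeval (fun q : Fin r × σ => P0 q.1 q.2)) (by
    intro v hv
    apply Subtype.ext
    apply h v.1 v.2
    intro j
    rw [mem_ker_pow_iff]
    intro α hα
    rw [← hT P0 j]
    exact hv (j, ⟨α, hα⟩))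
  refine ⟨F, fun h0 => hF0 (by rw [h0, map_zero]), fun P hP f hf hv => ?_⟩
  have := hF (aeval (fun q : Fin r × σ => P q.1 q.2)) (by rwa [aeval_eq_eval]) ⟨f, hf⟩ (by
    rintro ⟨j, α, hα⟩
    have h1 := (mem_ker_pow_iff _ _ _).1 (hv j) α hα
    rw [← hT P j] at h1
    exact h1)
  exact congrArg Subtype.val this

end Pool.Agent.MP_5499e5_ag
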