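import Pool.Agent.MP_5499e5_ag.Key
import Pool.Agent.MP_5499e5_ag.Semi

set_option autoImplicit false

namespace Pool.Agent.MP_5499e5_ag

open MvPolynomial

variable {K : Type*} [Field K] {n : ℕ}

/-- dehomogenisation `x_0 ↦ 1`, `x_1 ↦ t`, `x_{j+2} ↦ x_j` -/
noncomputable def deh : MvPolynomial (Fin (n + 2)) K →ₐ[K] RR K n :=
  aeval (Fin.cons 1 (Fin.cons (C Polynomial.X) X : Fin (n + 1) → RR K n) : Fin (n + 2) → RR K n)

lemma deh_monomial (α : Fin (n + 2) →₀ ℕ) (c : K) :
    deh (monomial α c) = monomial α.tail.tail (Polynomial.monomial (α.tail 0) c) := by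
  unfold deh
  rw [aeval_monomial, Finsupp.prod_fintype _ _ (by simp), Fin.prod_univ_succ, Fin.prod_univ_succ,
    monomial_eq, Finsupp.prod_fintype _ _ (by simp), ← Polynomial.C_mul_X_pow_eq_monomial]
  simp [Finsupp.tail_apply, mul_assoc, MvPolynomial.algebraMap_apply]

lemma cf_deh (f : MvPolynomial (Fin (n + 2)) K) (a : Fin n →₀ ℕ) (b : ℕ) :
    cf (deh f) a b =
      ∑ α ∈ f.support, if α.tail.tail = a ∧ α.tail 0 = b then f.coeff α else 0 := by
  conv_lhs => rw [f.as_sum, map_sum]
  unfold cf
  rw [coeff_sum, Polynomial.finsetSum_coeff]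
  refine Finset.sum_congr rfl fun α _ => ?_
  rw [deh_monomial, coeff_monomial]
  by_cases h1 : α.tail.tail = a
  · simp [h1, Polynomial.coeff_monomial]
  · simp [h1]

lemma degree_of_homog {f : MvPolynomial (Fin (n + 2)) K} {d : ℕ} (hf : f.IsHomogeneous d)
    {α : Fin (n + 2) →₀ ℕ} (hα : α ∈ f.support) :
    α 0 + (α.tail 0 + α.tail.tail.degree) = d := by
  rw [← degree_eq_tail, ← degree_eq_tail]
  by_contra h
  exact (mem_support_iff.1 hα) (hf.coeff_eq_zero h)

lemma degLe_deh {f : MvPolynomial (Fin (n + 2)) K} {d : ℕ} (hf : f.IsHomogeneous d) :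
    DegLe 1 d (deh f) := by
  intro a b h
  rw [cf_deh] at h
  obtain ⟨α, hα, h1⟩ := Finset.exists_ne_zero_of_sum_ne_zero h
  split_ifs at h1 with h2
  · obtain ⟨rfl, rfl⟩ := h2
    have := degree_of_homog hf hα
    omega
  · simp at h1

lemma deh_ne_zero {f : MvPolynomial (Fin (n + 2)) K} {d : ℕ} (hf : f.IsHomogeneous d)
    (h0 : f ≠ 0) : deh f ≠ 0 := by
  obtain ⟨β, hβ⟩ := support_nonempty.2 h0
  have h1 : cf (deh f) β.tail.tail (β.tail 0) = f.coeff β := by
    rw [cf_deh, Finset.sum_eq_single β]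
    · simp
    · intro α hα hne
      rw [if_neg]
      rintro ⟨h2, h3⟩
      apply hne
      have h4 := degree_of_homog hf hα
      have h5 := degree_of_homog hf hβ
      rw [h2, h3] at h4
      have h6 : α 0 = β 0 := by omega
      have h7 : α.tail = β.tail := by
        rw [← Finsupp.cons_tail α.tail, ← Finsupp.cons_tail β.tail, h2, h3]
      rw [← Finsupp.cons_tail α, ← Finsupp.cons_tail β, h6, h7]
    · intro h
      exact absurd hβ h
  intro h
  rw [h] at h1
  apply mem_support_iff.1 hβ
  rw [← h1]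
  simp [cf]

/-- vanishing to order `m` at a point of the `t` axis -/
lemma dvd_coeff_of_mem_pow (t0 : K) {m : ℕ} {g : RR K n}
    (hg : g ∈ (RingHom.ker ((Polynomial.evalRingHom t0).comp
      (constantCoeff : RR K n →+* Polynomial K))) ^ m) (a : Fin n →₀ ℕ) :
    (Polynomial.X - Polynomial.C t0) ^ (m - a.degree) ∣ coeff a g := by
  classical
  induction hg using Submodule.pow_induction_on_left' generalizing a with
  | algebraMap r => simp
  | add x y i hx hy ihx ihy =>
    rw [coeff_add]
    exact dvd_add (ihx a) (ihy a)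
  | mem_mul y hy i x hx ih =>
    rw [coeff_mul]
    refine Finset.dvd_sum fun p hp => ?_
    have h1 : p.1.degree + p.2.degree = a.degree := by
      rw [← map_add, Finset.HasAntidiagonal.mem_antidiagonal.1 hp]
    by_cases h2 : p.1 = 0
    · have h3 : (Polynomial.X - Polynomial.C t0) ∣ coeff p.1 y := by
        rw [h2, Polynomial.dvd_iff_isRoot]
        exact hy
      have h4 := mul_dvd_mul h3 (ih p.2)
      rw [← pow_succ'] at h4
      refine (pow_dvd_pow _ ?_).trans h4
      omega
    · have h3 : p.1.degree ≠ 0 := by rwa [Ne, Finsupp.degree_eq_zero_iff]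
      refine Dvd.dvd.mul_left ((pow_dvd_pow _ ?_).trans (ih p.2)) _
      omega

/-- the point of the curve with parameter `t0` -/
noncomputable def pt (γ : Fin n → Polynomial K) (t0 : K) : Fin (n + 2) → K :=
  Fin.cons 1 (Fin.cons t0 fun i => (γ i).eval t0 : Fin (n + 1) → K)

lemma dvd_coeff_of_vanish (γ : Fin n → Polynomial K) (t0 : K) {m : ℕ}
    {f : MvPolynomial (Fin (n + 2)) K} (hf : f ∈ (RingHom.ker (eval (pt γ t0))) ^ m)
    (a : Fin n →₀ ℕ) :
    (Polynomial.X - Polynomial.C t0) ^ (m - a.degree) ∣ coeff a (tr γ (deh f)) := by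
  apply dvd_coeff_of_mem_pow
  refine mem_pow_map ((tr γ).toRingHom.comp deh.toRingHom) (fun x hx => ?_) hf
  have h1 : ((Polynomial.evalRingHom t0).comp (constantCoeff : RR K n →+* Polynomial K)).comp
      ((tr γ).toRingHom.comp deh.toRingHom) = eval (pt γ t0) := by
    apply MvPolynomial.ringHom_ext
    · intro c
      simp [tr, deh, MvPolynomial.algebraMap_apply]
    · intro i
      refine Fin.cases ?_ (fun i => ?_) i
      · simp [tr, deh, pt]
      · refine Fin.cases ?_ (fun i => ?_) i
        · simp [tr, deh, pt]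
        · simp [tr, deh, pt]
  have h2 : eval (pt γ t0) x = 0 := hx
  rw [← h1] at h2
  exact h2

/-- collision of the `r` points along the curve -/
lemma special [Infinite K] {r d m : ℕ} {c : ℝ} (hr : 1 ≤ r) (hK : Key K n 1 r c)
    (hd : (d : ℝ) < c * m) :
    ∃ P0 : Fin r → Fin (n + 2) → K, ∀ f : MvPolynomial (Fin (n + 2)) K, f.IsHomogeneous d →
      (∀ j, f ∈ (RingHom.ker (eval (P0 j))) ^ m) → f = 0 := by
  obtain ⟨γ, hγ⟩ := hK
  let u : Fin r → K := fun j => Infinite.natEmbedding K j
  have hu : Function.Injective u := (Infinite.natEmbedding K).injective.comp Fin.val_injective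
  let S := Polynomial K
  let V := homogeneousSubmodule (Fin (n + 2)) K d
  have : FiniteDimensional K V := Module.Finite.iff_fg.2 (homogeneousSubmodule_fg _ K d)
  let Q : Polynomial S := ∏ j, (Polynomial.X - Polynomial.C (Polynomial.C (u j) * Polynomial.X))
  have hQ : Q.Monic := Polynomial.monic_prod_of_monic _ _ fun j _ => Polynomial.monic_X_sub_C _
  let G : (Fin n →₀ ℕ) → V →ₗ[K] Polynomial K := fun a =>
    ((lcoeff (Polynomial K) a).restrictScalars K).comp
      ((((tr γ).restrictScalars K).comp deh).toLinearMap.comp V.subtype)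
  have hG : ∀ a (v : V), G a v = coeff a (tr γ (deh v.1)) := fun a v => rfl
  let Λ : (Fin n →₀ ℕ) × ℕ → V →ₗ[K] S := fun i =>
    ((Polynomial.lcoeff S i.2).restrictScalars K).comp
      (((Polynomial.modByMonicHom (Q ^ (m - i.1.degree))).restrictScalars K).comp
        ((Polynomial.mapAlgHom (Algebra.ofId K S)).toLinearMap.comp (G i.1)))
  have hΛ : ∀ (τ : K) (a : Fin n →₀ ℕ) (v : V),
      (∀ j, Polynomial.aeval τ (Λ (a, j) v) = 0) ↔
        (∏ j, (Polynomial.X - Polynomial.C (u j * τ))) ^ (m - a.degree) ∣ G a v := by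
    intro τ a v
    have h1 : ∀ j, Polynomial.aeval τ (Λ (a, j) v) =
        (((G a v).map (algebraMap K S) %ₘ (Q ^ (m - a.degree))).map
          (Polynomial.evalRingHom τ)).coeff j := by
      intro j
      rw [Polynomial.coeff_map, Polynomial.coe_aeval_eq_eval]
      rfl
    have h2 : Q.map (Polynomial.evalRingHom τ) = ∏ j, (Polynomial.X - Polynomial.C (u j * τ)) := by
      simp [Q, Polynomial.map_prod, S]
    have h3 : ((G a v).map (algebraMap K S)).map (Polynomial.evalRingHom τ) = G a v := by
      rw [Polynomial.map_map]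
      have : (Polynomial.evalRingHom τ).comp (algebraMap K S) = RingHom.id K := by
        ext c
        simp [S]
      rw [this, Polynomial.map_id]
    simp only [h1]
    rw [Polynomial.map_modByMonic _ (hQ.pow _), h3, Polynomial.map_pow, h2,
      ← Polynomial.modByMonic_eq_zero_iff_dvd
        ((Polynomial.monic_prod_of_monic _ _ fun j _ => Polynomial.monic_X_sub_C _).pow _),
      Polynomial.ext_iff]
    simp
  obtain ⟨F, hF0, hF⟩ := semicont Λ (Polynomial.aeval (0 : K)) (by
    intro v hv
    by_contra h0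
    have h1 : v.1 ≠ 0 := fun h => h0 (Subtype.ext h)
    have h2 : OrdGe r (r * m) (tr γ (deh v.1)) := by
      intro a b hab
      have h3 := (hΛ 0 a v).1 fun j => hv (a, j)
      simp only [mul_zero, map_zero, sub_zero, Finset.prod_const, Finset.card_univ,
        Fintype.card_fin, ← pow_mul] at h3
      rw [Polynomial.X_pow_dvd_iff, hG] at h3
      have h4 : r * (m - a.degree) ≤ b := by
        by_contra h5
        exact hab (h3 b (by omega))
      have h5 : m ≤ m - a.degree + a.degree := by omega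
      calc r * m ≤ r * (m - a.degree + a.degree) := Nat.mul_le_mul_left _ h5
        _ ≤ b + r * a.degree := by rw [mul_add]; omega
    have h3 := hγ d (r * m) _ (deh_ne_zero v.2 h1) (degLe_deh v.2) h2
    have h4 : (0 : ℝ) < r := by exact_mod_cast (by omega : 0 < r)
    push_cast at h3
    nlinarith)
  have hF1 : F * Polynomial.X ≠ 0 :=
    mul_ne_zero (fun h => hF0 (by rw [h, map_zero])) Polynomial.X_ne_zero
  obtain ⟨τ, hτ⟩ : ∃ τ : K, Polynomial.eval τ (F * Polynomial.X) ≠ 0 := by
    by_contra h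
    push Not at h
    exact hF1 (Polynomial.funext (by simpa using h))
  rw [Polynomial.eval_mul, Polynomial.eval_X] at hτ
  have hτ0 : τ ≠ 0 := right_ne_zero_of_mul hτ
  refine ⟨fun j => pt γ (u j * τ), fun f hf hv => ?_⟩
  have := hF (Polynomial.aeval τ) (by
    rw [Polynomial.coe_aeval_eq_eval]
    exact left_ne_zero_of_mul hτ) ⟨f, hf⟩ (by
    rintro ⟨a, j⟩
    refine (hΛ τ a ⟨f, hf⟩).2 ?_ j
    rw [← Finset.prod_pow]
    apply Finset.prod_dvd_of_coprime
    · intro i _ j _ hij
      apply IsCoprime.pow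
      exact Polynomial.pairwise_coprime_X_sub_C (s := fun j => u j * τ)
        (fun i j h => hu (mul_right_cancel₀ hτ0 h)) hij
    · intro j _
      exact dvd_coeff_of_vanish γ _ (hv j) a)
  exact congrArg Subtype.val this

end Pool.Agent.MP_5499e5_ag
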