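import Mathlib

set_option autoImplicit false

namespace Pool.Agent.MP_5499e5_ag

open MvPolynomial

variable {K : Type*} [Field K] {n : ℕ}

/-- polynomials in `t, x_1 .. x_n`, written as polynomials in `x` over `K[t]` -/
abbrev RR (K : Type*) [Field K] (n : ℕ) := MvPolynomial (Fin n) (Polynomial K)

/-- coefficient of `t^b x^a` -/
noncomputable def cf (f : RR K n) (a : Fin n →₀ ℕ) (b : ℕ) : K := (coeff a f).coeff b

/-- weighted degree at most `D` (weight 1 on `t`, `w` on each `x`) -/
def DegLe (w D : ℕ) (f : RR K n) : Prop := ∀ a b, cf f a b ≠ 0 → b + w * a.degree ≤ D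

/-- weighted order at least `M` -/
def OrdGe (w M : ℕ) (f : RR K n) : Prop := ∀ a b, cf f a b ≠ 0 → M ≤ b + w * a.degree

lemma eq_zero_of_cf {f : RR K n} (h : ∀ a b, cf f a b = 0) : f = 0 := by
  ext a b
  simpa [cf] using h a b

lemma cf_monomial (a a' : Fin n →₀ ℕ) (g : Polynomial K) (b : ℕ) :
    cf (monomial a g : RR K n) a' b = if a = a' then g.coeff b else 0 := by
  unfold cf
  rw [coeff_monomial]
  split_ifs <;> simp

lemma cf_add (f g : RR K n) (a : Fin n →₀ ℕ) (b : ℕ) : cf (f + g) a b = cf f a b + cf g a b := by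
  simp [cf]

/-- the grading homomorphism `t ↦ t u`, `x ↦ x u^w` -/
noncomputable def HH (w : ℕ) : RR K n →+* Polynomial (RR K n) :=
  eval₂Hom (Polynomial.eval₂RingHom (Polynomial.C.comp (C.comp Polynomial.C))
      (Polynomial.C (C Polynomial.X) * Polynomial.X))
    (fun j => Polynomial.C (X j) * Polynomial.X ^ w)

lemma HH_C_monomial (w b : ℕ) (c : K) :
    HH (n := n) w (C (Polynomial.monomial b c)) =
      Polynomial.monomial b (C (Polynomial.monomial b c)) := by
  unfold HH
  rw [eval₂Hom_C, Polynomial.coe_eval₂RingHom, Polynomial.eval₂_monomial, mul_pow,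
    ← Polynomial.C_mul_X_pow_eq_monomial, ← Polynomial.C_mul_X_pow_eq_monomial]
  simp [mul_assoc]

lemma HH_monomial_one (w : ℕ) (a : Fin n →₀ ℕ) :
    HH (K := K) w (monomial a 1) = Polynomial.monomial (w * a.degree) (monomial a 1) := by
  unfold HH
  rw [eval₂Hom_monomial, map_one, one_mul, ← Polynomial.C_mul_X_pow_eq_monomial, monomial_eq,
    C_1, one_mul, Finsupp.prod_fintype _ _ (by simp), Finsupp.prod_fintype _ _ (by simp),
    Finsupp.degree_eq_sum, Finset.mul_sum, map_prod, ← Finset.prod_pow_eq_pow_sum,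
    ← Finset.prod_mul_distrib]
  refine Finset.prod_congr rfl fun j _ => ?_
  rw [mul_pow, ← pow_mul, map_pow]

lemma HH_mono (w b : ℕ) (c : K) (a : Fin n →₀ ℕ) :
    HH w (monomial a (Polynomial.monomial b c) : RR K n) =
      Polynomial.monomial (b + w * a.degree) (monomial a (Polynomial.monomial b c)) := by
  have : (monomial a (Polynomial.monomial b c) : RR K n) =
      C (Polynomial.monomial b c) * monomial a 1 := by
    rw [C_mul_monomial, mul_one]
  rw [this, map_mul, HH_C_monomial, HH_monomial_one, Polynomial.monomial_mul_monomial]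

lemma cf_HH (w : ℕ) (f : RR K n) (k : ℕ) (a : Fin n →₀ ℕ) (b : ℕ) :
    cf ((HH w f).coeff k) a b = if b + w * a.degree = k then cf f a b else 0 := by
  induction f using MvPolynomial.induction_on' with
  | add p q hp hq =>
    rw [map_add, Polynomial.coeff_add, cf_add, hp, hq, cf_add]
    split_ifs <;> simp
  | monomial a' g =>
    induction g using Polynomial.induction_on' with
    | add p q hp hq =>
      rw [map_add, map_add, Polynomial.coeff_add, cf_add, hp, hq, cf_add]
      split_ifs <;> simp
    | monomial b' c =>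
      rw [HH_mono, Polynomial.coeff_monomial]
      by_cases h1 : a' = a
      · subst h1
        by_cases h2 : b' = b
        · subst h2
          split_ifs <;> simp [cf]
        · have h3 : cf (monomial a' (Polynomial.monomial b' c) : RR K n) a' b = 0 := by
            rw [cf_monomial, if_pos rfl, Polynomial.coeff_monomial, if_neg h2]
          rw [h3]
          split_ifs
          all_goals first | exact h3 | simp [cf]
      · have h3 : cf (monomial a' (Polynomial.monomial b' c) : RR K n) a b = 0 := by
          rw [cf_monomial, if_neg h1]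
        rw [h3]
        split_ifs
        all_goals first | exact h3 | simp [cf]

lemma HH_ne_zero (w : ℕ) {f : RR K n} (hf : f ≠ 0) : HH w f ≠ 0 := by
  intro h
  apply hf
  apply eq_zero_of_cf
  intro a b
  have := cf_HH w f (b + w * a.degree) a b
  rw [h, if_pos rfl] at this
  rw [← this]
  simp [cf]

lemma degLe_iff (w D : ℕ) (f : RR K n) : DegLe w D f ↔ (HH w f).natDegree ≤ D := by
  rw [Polynomial.natDegree_le_iff_coeff_eq_zero]
  constructor
  · intro h k hk
    apply eq_zero_of_cf
    intro a b
    rw [cf_HH]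
    split_ifs with h1
    · by_contra h2
      have := h a b h2
      omega
    · rfl
  · intro h a b hab
    by_contra h2
    have h3 := cf_HH w f (b + w * a.degree) a b
    rw [if_pos rfl, h _ (by omega)] at h3
    apply hab
    rw [← h3]
    simp [cf]

lemma ordGe_iff (w M : ℕ) {f : RR K n} (hf : f ≠ 0) :
    OrdGe w M f ↔ M ≤ (HH w f).natTrailingDegree := by
  constructor
  · intro h
    apply Polynomial.le_natTrailingDegree (HH_ne_zero w hf)
    intro k hk
    apply eq_zero_of_cf
    intro a b
    rw [cf_HH]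
    split_ifs with h1
    · by_contra h2
      have := h a b h2
      omega
    · rfl
  · intro h a b hab
    by_contra h2
    have h3 := cf_HH w f (b + w * a.degree) a b
    rw [if_pos rfl, Polynomial.coeff_eq_zero_of_lt_natTrailingDegree (by omega)] at h3
    apply hab
    rw [← h3]
    simp [cf]

/-- dividing by `y` lowers the degree by at least the weight of any monomial of `y` -/
lemma degLe_of_mul {w D : ℕ} {y f : RR K n} (hf : f ≠ 0) (h : DegLe w D (y * f))
    {a : Fin n →₀ ℕ} {b : ℕ} (hy : cf y a b ≠ 0) :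
    b + w * a.degree ≤ D ∧ DegLe w (D - (b + w * a.degree)) f := by
  have hy0 : y ≠ 0 := by
    rintro rfl
    simp [cf] at hy
  rw [degLe_iff, map_mul, Polynomial.natDegree_mul (HH_ne_zero w hy0) (HH_ne_zero w hf)] at h
  have h1 : b + w * a.degree ≤ (HH w y).natDegree :=
    (degLe_iff w _ y).2 le_rfl a b hy
  refine ⟨by omega, ?_⟩
  rw [degLe_iff]
  omega

/-- dividing by `y` lowers the order by at most the weight of any monomial of `y` -/
lemma ordGe_of_mul {w M : ℕ} {y f : RR K n} (hf : f ≠ 0) (h : OrdGe w M (y * f))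
    {a : Fin n →₀ ℕ} {b : ℕ} (hy : cf y a b ≠ 0) :
    OrdGe w (M - (b + w * a.degree)) f := by
  have hy0 : y ≠ 0 := by
    rintro rfl
    simp [cf] at hy
  rw [ordGe_iff w _ (mul_ne_zero hy0 hf), map_mul,
    Polynomial.natTrailingDegree_mul (HH_ne_zero w hy0) (HH_ne_zero w hf)] at h
  have h1 : (HH w y).natTrailingDegree ≤ b + w * a.degree :=
    (ordGe_iff w _ hy0).2 le_rfl a b hy
  rw [ordGe_iff w _ hf]
  omega

/-- substitution `x_0 ↦ β` -/
noncomputable def res (β : Polynomial K) : RR K (n + 1) →ₐ[Polynomial K] RR K n :=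
  aeval (Fin.cons (C β) X : Fin (n + 1) → RR K n)

lemma res_monomial (β : Polynomial K) (a : Fin (n + 1) →₀ ℕ) (g : Polynomial K) :
    res β (monomial a g) = monomial a.tail (g * β ^ (a 0)) := by
  unfold res
  rw [aeval_monomial, Finsupp.prod_fintype _ _ (by simp), Fin.prod_univ_succ, monomial_eq,
    Finsupp.prod_fintype _ _ (by simp)]
  simp [Finsupp.tail_apply, mul_assoc]

lemma degree_eq_tail (a : Fin (n + 1) →₀ ℕ) : a.degree = a 0 + a.tail.degree := by
  rw [Finsupp.degree_eq_sum, Finsupp.degree_eq_sum, Fin.sum_univ_succ]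
  simp [Finsupp.tail_apply]

lemma cf_res {c : K} {k : ℕ} {f : RR K (n + 1)} {a' : Fin n →₀ ℕ} {b' : ℕ}
    (h : cf (res (Polynomial.C c * Polynomial.X ^ k) f) a' b' ≠ 0) :
    ∃ (a : Fin (n + 1) →₀ ℕ) (b : ℕ), cf f a b ≠ 0 ∧ a.tail = a' ∧ b' = b + k * a 0 := by
  rw [f.as_sum, map_sum] at h
  unfold cf at h
  rw [coeff_sum, Polynomial.finsetSum_coeff] at h
  obtain ⟨a, -, ha⟩ := Finset.exists_ne_zero_of_sum_ne_zero h
  rw [res_monomial, coeff_monomial] at ha
  split_ifs at ha with h1
  · rw [mul_pow, ← pow_mul, ← map_pow, mul_left_comm, Polynomial.coeff_C_mul,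
      Polynomial.coeff_mul_X_pow'] at ha
    split_ifs at ha with h2
    · exact ⟨a, b' - k * a 0, right_ne_zero_of_mul ha, h1, by omega⟩
    · simp at ha
  · simp at ha

lemma dvd_of_res {β : Polynomial K} {f : RR K (n + 1)} (h : res β f = 0) :
    (X 0 - C β : RR K (n + 1)) ∣ f := by
  have key : ∀ f : RR K (n + 1), (X 0 - C β : RR K (n + 1)) ∣ f - rename Fin.succ (res β f) := by
    intro f
    induction f using MvPolynomial.induction_on with
    | C a => simp [res]
    | add p q hp hq =>
      have := dvd_add hp hq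
      rw [map_add, map_add]
      convert this using 1
      ring
    | mul_X p j hp =>
      rw [map_mul, map_mul]
      refine Fin.cases ?_ (fun j => ?_) j
      · have h1 : res β (X 0 : RR K (n + 1)) = C β := by simp [res]
        rw [h1, rename_C]
        have : p * X 0 - rename Fin.succ (res β p) * C β =
            p * (X 0 - C β) + (p - rename Fin.succ (res β p)) * C β := by ring
        rw [this]
        exact dvd_add (dvd_mul_left _ _) (hp.mul_right _)
      · have h1 : res β (X j.succ : RR K (n + 1)) = X j := by simp [res]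
        rw [h1, rename_X, ← sub_mul]
        exact hp.mul_right _
  simpa [h] using key f

/-- translation `x_j ↦ x_j + γ_j` -/
noncomputable def tr (γ : Fin n → Polynomial K) : RR K n →ₐ[Polynomial K] RR K n :=
  aeval (fun j => X j + C (γ j))

lemma tr_ne_zero (γ : Fin n → Polynomial K) {f : RR K n} (hf : f ≠ 0) : tr γ f ≠ 0 := by
  intro h
  have : (tr (-γ)).comp (tr γ) = AlgHom.id _ _ := by
    ext1 j
    simp [tr]
  have h2 := congrArg (fun φ => φ f) this
  simp only [AlgHom.comp_apply, h, map_zero, AlgHom.id_apply] at h2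
  exact hf h2.symm

lemma tr_res (γ : Fin n → Polynomial K) (β β' : Polynomial K) (f : RR K (n + 1)) :
    tr γ (res β f) = res (-β') (tr (Fin.cons (β + β') γ : Fin (n + 1) → Polynomial K) f) := by
  have : (tr γ).comp (res β) =
      (res (-β')).comp (tr (Fin.cons (β + β') γ : Fin (n + 1) → Polynomial K)) := by
    ext1 j
    refine Fin.cases ?_ (fun j => ?_) j
    · simp [tr, res]
    · simp [tr, res]
  exact congrArg (fun φ => φ f) this

end Pool.Agent.MP_5499e5_ag
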