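import Pool.Agent.MP_5499e5_ag.Filt

set_option autoImplicit false

namespace Pool.Agent.MP_5499e5_ag

open MvPolynomial

/-- along a suitable curve `x = γ(t)`, degree and order compare with ratio `c` -/
def Key (K : Type*) [Field K] (n E s : ℕ) (c : ℝ) : Prop :=
  ∃ γ : Fin n → Polynomial K, ∀ (D M : ℕ) (f : RR K n), f ≠ 0 → DegLe E D f →
    OrdGe s M (tr γ f) → c * E * M ≤ D * s

variable {K : Type*} [Field K]

lemma key_zero {E s : ℕ} {c : ℝ} (h : c * E ≤ s) : Key K 0 E s c := by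
  refine ⟨fun j => j.elim0, fun D M f hf hD hM => ?_⟩
  have h1 : tr (K := K) (n := 0) (fun j => j.elim0) = AlgHom.id _ _ := by
    ext1 j
    exact j.elim0
  rw [h1, AlgHom.id_apply] at hM
  obtain ⟨a, b, hab⟩ : ∃ a b, cf f a b ≠ 0 := by
    by_contra h2
    push Not at h2
    exact hf (eq_zero_of_cf h2)
  have h2 := hD a b hab
  have h3 := hM a b hab
  have h4 : a.degree = 0 := by
    rw [Finsupp.degree_eq_sum]
    simp
  rw [h4] at h2 h3
  have h5 : (M : ℝ) ≤ D := by exact_mod_cast (by omega : M ≤ D)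
  have h6 : (0 : ℝ) ≤ M := Nat.cast_nonneg _
  have h7 : (0 : ℝ) ≤ s := Nat.cast_nonneg _
  nlinarith

lemma key_succ {n E e s s' : ℕ} {c : ℝ} (hc : 0 ≤ c) (hE : 1 ≤ E) (he : 1 ≤ e) (hs' : 1 ≤ s')
    (hs : s' ≤ s) (hce : c * s' ≤ e * s) (hK : Key K n (E * e) s' c) : Key K (n + 1) E s c := by
  obtain ⟨γ, hγ⟩ := hK
  refine ⟨Fin.cons (Polynomial.X ^ (E * e) + Polynomial.X ^ s') γ, fun D => ?_⟩
  induction D using Nat.strong_induction_on with
  | _ D ih =>
  intro M f hf hD hM
  have hspos : (0 : ℝ) < s := by exact_mod_cast (by omega : 0 < s)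
  have hs'pos : (0 : ℝ) < s' := by exact_mod_cast (by omega : 0 < s')
  have hepos : (0 : ℝ) < e := by exact_mod_cast (by omega : 0 < e)
  have hEpos : (0 : ℝ) < E := by exact_mod_cast (by omega : 0 < E)
  by_cases h0 : res (Polynomial.X ^ (E * e)) f = 0
  · obtain ⟨f1, rfl⟩ := dvd_of_res h0
    have hf1 : f1 ≠ 0 := right_ne_zero_of_mul hf
    have hy : cf (X 0 - C (Polynomial.X ^ (E * e)) : RR K (n + 1)) 0 (E * e) ≠ 0 := by
      unfold cf
      rw [coeff_sub, coeff_zero_X, coeff_zero_C, zero_sub, Polynomial.coeff_neg,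
        Polynomial.coeff_X_pow_self]
      simp
    obtain ⟨h1, h2⟩ := degLe_of_mul hf1 hD hy
    simp only [map_zero, mul_zero, add_zero] at h1 h2
    rw [map_mul] at hM
    have hy' : cf (tr (Fin.cons (Polynomial.X ^ (E * e) + Polynomial.X ^ s') γ :
        Fin (n + 1) → Polynomial K) (X 0 - C (Polynomial.X ^ (E * e)) : RR K (n + 1))) 0 s' ≠ 0 := by
      have : tr (Fin.cons (Polynomial.X ^ (E * e) + Polynomial.X ^ s') γ :
          Fin (n + 1) → Polynomial K) (X 0 - C (Polynomial.X ^ (E * e)) : RR K (n + 1)) =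
          X 0 + C (Polynomial.X ^ s') := by
        simp [tr]
        ring
      rw [this]
      unfold cf
      rw [coeff_add, coeff_zero_X, coeff_zero_C, zero_add, Polynomial.coeff_X_pow_self]
      simp
    have h3 := ordGe_of_mul (tr_ne_zero _ hf1) hM hy'
    simp only [map_zero, mul_zero, add_zero] at h3
    have hpos : 0 < E * e := Nat.mul_pos (by omega) (by omega)
    have h4 := ih (D - E * e) (by omega) (M - s') f1 hf1 h2 h3
    rw [Nat.cast_sub h1] at h4
    have h5 : (M : ℝ) ≤ ((M - s' : ℕ) : ℝ) + s' := by exact_mod_cast (by omega : M ≤ M - s' + s')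
    have h6 : c * E * M ≤ c * E * (((M - s' : ℕ) : ℝ) + s') :=
      mul_le_mul_of_nonneg_left h5 (by positivity)
    have h7 : E * (c * s') ≤ E * (e * s) := mul_le_mul_of_nonneg_left hce hEpos.le
    push_cast at h4
    nlinarith
  · have hD' : DegLe (E * e) (e * D) (res (Polynomial.X ^ (E * e)) f) := by
      intro a' b' h
      have h' : cf (res (Polynomial.C 1 * Polynomial.X ^ (E * e)) f) a' b' ≠ 0 := by simpa using h
      obtain ⟨a, b, h1, rfl, rfl⟩ := cf_res h'
      have h2 := hD a b h1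
      rw [degree_eq_tail] at h2
      have h3 : e * (b + E * (a 0 + a.tail.degree)) ≤ e * D := Nat.mul_le_mul_left _ h2
      have h4 : b ≤ e * b := Nat.le_mul_of_pos_left _ (by omega)
      nlinarith
    have hM' : OrdGe s' ⌈(s' * M : ℝ) / s⌉₊ (tr γ (res (Polynomial.X ^ (E * e)) f)) := by
      intro a' b' h
      rw [tr_res γ _ (Polynomial.X ^ s')] at h
      have h' : cf (res (Polynomial.C (-1) * Polynomial.X ^ s')
          (tr (Fin.cons (Polynomial.X ^ (E * e) + Polynomial.X ^ s') γ :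
            Fin (n + 1) → Polynomial K) f)) a' b' ≠ 0 := by simpa using h
      obtain ⟨a, b, h1, rfl, rfl⟩ := cf_res h'
      have h2 := hM a b h1
      rw [degree_eq_tail] at h2
      rw [Nat.ceil_le, div_le_iff₀ hspos]
      have h3 : s' * M ≤ s' * (b + s * (a 0 + a.tail.degree)) := Nat.mul_le_mul_left _ h2
      have h4 : s' * b ≤ s * b := Nat.mul_le_mul_right _ hs
      have h5 : s' * M ≤ (b + s' * a 0 + s' * a.tail.degree) * s := by nlinarith
      exact_mod_cast h5
    have h1 := hγ _ _ _ h0 hD' hM'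
    have h2 : (s' * M : ℝ) ≤ (⌈(s' * M : ℝ) / s⌉₊ : ℝ) * s := by
      rw [← div_le_iff₀ hspos]
      exact Nat.le_ceil _
    push_cast at h1
    have h3 : (e * s' : ℝ) * (c * E * M) ≤ (e * s') * (D * s) := by
      have h4 : c * E * e * (s' * M) ≤ c * E * e * ((⌈(s' * M : ℝ) / s⌉₊ : ℝ) * s) :=
        mul_le_mul_of_nonneg_left h2 (by positivity)
      have h5 : c * (E * e) * (⌈(s' * M : ℝ) / s⌉₊ : ℝ) * s ≤ e * D * s' * s :=
        mul_le_mul_of_nonneg_right h1 hspos.le
      nlinarith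
    exact le_of_mul_le_mul_left h3 (by positivity)

/-- the rounding choice of the contact orders -/
lemma key_of_bound {k : ℕ} (hk : 1 ≤ k) {c : ℝ} (hc : (k : ℝ) ≤ c) :
    ∀ (n j s : ℕ), c ^ (n + 1) * k ^ j + ∑ i ∈ Finset.range n, (c / k) ^ (i + 1) ≤ s →
      Key K n (k ^ j) s c := by
  have hkpos : (0 : ℝ) < k := by exact_mod_cast (by omega : 0 < k)
  have hcpos : 0 < c := lt_of_lt_of_le hkpos hc
  have hq : 1 ≤ c / k := by rw [le_div_iff₀ hkpos]; linarith
  intro n
  induction n with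
  | zero =>
    intro j s h
    apply key_zero
    simpa using h
  | succ n ih =>
    intro j s h
    set B : ℝ := c ^ (n + 1) * k ^ (j + 1) + ∑ i ∈ Finset.range n, (c / k) ^ (i + 1) with hB
    have hBpos : 0 < B := by
      have : 0 ≤ ∑ i ∈ Finset.range n, (c / k) ^ (i + 1) :=
        Finset.sum_nonneg fun i _ => by positivity
      have h2 : 0 < c ^ (n + 1) * k ^ (j + 1) := by positivity
      linarith
    have h1 : (⌈B⌉₊ : ℝ) ≤ B + 1 := (Nat.ceil_lt_add_one hBpos.le).le
    have h2 : c / k * (B + 1) = c ^ (n + 1 + 1) * k ^ j +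
        ∑ i ∈ Finset.range (n + 1), (c / k) ^ (i + 1) := by
      rw [hB, Finset.sum_range_succ', mul_add, mul_add, Finset.mul_sum]
      have h3 : ∑ i ∈ Finset.range n, c / k * (c / k) ^ (i + 1) =
          ∑ i ∈ Finset.range n, (c / k) ^ (i + 1 + 1) :=
        Finset.sum_congr rfl fun i _ => by ring
      have h4 : c / k * (c ^ (n + 1) * k ^ (j + 1)) = c ^ (n + 1 + 1) * k ^ j := by
        field_simp
        ring
      rw [h3, h4]
      ring
    have h3 : c / k * (⌈B⌉₊ : ℝ) ≤ s := by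
      calc c / k * (⌈B⌉₊ : ℝ) ≤ c / k * (B + 1) := mul_le_mul_of_nonneg_left h1 (by positivity)
        _ ≤ s := by rw [h2]; exact h
    have h4 : (⌈B⌉₊ : ℝ) ≤ s := by
      have : (0 : ℝ) ≤ ⌈B⌉₊ := Nat.cast_nonneg _
      nlinarith
    refine key_succ (e := k) (s' := ⌈B⌉₊) hcpos.le (Nat.one_le_pow _ _ (by omega)) hk
      (Nat.ceil_pos.2 hBpos) (by exact_mod_cast h4) ?_ ?_
    · rw [div_mul_eq_mul_div, div_le_iff₀ hkpos] at h3
      linarith
    · rw [← pow_succ]
      exact ih _ _ (Nat.le_ceil _)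

/-- the integral choice of the contact orders -/
lemma key_int {k : ℕ} (hk : 1 ≤ k) :
    ∀ (n j s : ℕ), k ^ (n + j + 1) ≤ s → Key K n (k ^ j) s k := by
  intro n
  induction n with
  | zero =>
    intro j s h
    apply key_zero
    rw [zero_add, pow_succ'] at h
    exact_mod_cast h
  | succ n ih =>
    intro j s h
    refine key_succ (e := k) (s' := k ^ (n + 1 + j + 1)) (Nat.cast_nonneg _)
      (Nat.one_le_pow _ _ (by omega)) hk (Nat.one_le_pow _ _ (by omega)) h ?_ ?_
    · exact mul_le_mul_of_nonneg_left (by exact_mod_cast h) (Nat.cast_nonneg _)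
    · rw [← pow_succ]
      apply ih
      rw [show n + (j + 1) + 1 = n + 1 + j + 1 by ring]

/-- the explicit bound -/
lemma key_explicit {k n r : ℕ} (hk : 1 ≤ k) (h1 : k ^ (n + 1) ≤ r) (h2 : r ≤ (k + 1) ^ (n + 1)) :
    ∃ c : ℝ, 0 ≤ c ∧
      (r : ℝ) - ∑ i ∈ Finset.range n, (1 + 1 / (k : ℝ)) ^ (i + 1) ≤ c ^ (n + 1) ∧
      Key K n 1 r c := by
  have hkpos : (0 : ℝ) < k := by exact_mod_cast (by omega : 0 < k)
  set S : ℝ := ∑ i ∈ Finset.range n, (1 + 1 / (k : ℝ)) ^ (i + 1) with hS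
  have hS0 : 0 ≤ S := Finset.sum_nonneg fun i _ => by positivity
  by_cases h : (r : ℝ) - S ≤ (k : ℝ) ^ (n + 1)
  · refine ⟨k, hkpos.le, h, ?_⟩
    simpa using key_int (K := K) hk n 0 r (by simpa using h1)
  · push Not at h
    have hpos : 0 ≤ (r : ℝ) - S := le_trans (by positivity) h.le
    set c : ℝ := ((r : ℝ) - S) ^ ((n + 1 : ℕ) : ℝ)⁻¹ with hc
    have hc0 : 0 ≤ c := Real.rpow_nonneg hpos _
    have hcN : c ^ (n + 1) = r - S := Real.rpow_inv_natCast_pow hpos (by omega)
    have hkc : (k : ℝ) ≤ c := by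
      apply le_of_pow_le_pow_left₀ (n := n + 1) (by omega) hc0
      rw [hcN]
      exact h.le
    have hck : c ≤ k + 1 := by
      apply le_of_pow_le_pow_left₀ (n := n + 1) (by omega) (by positivity)
      rw [hcN]
      have : (r : ℝ) ≤ ((k : ℝ) + 1) ^ (n + 1) := by exact_mod_cast h2
      linarith
    refine ⟨c, hc0, hcN.ge, ?_⟩
    have h3 := key_of_bound (K := K) hk hkc n 0 r (by
      rw [hcN, pow_zero, mul_one]
      have : ∑ i ∈ Finset.range n, (c / k) ^ (i + 1) ≤ S := by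
        refine Finset.sum_le_sum fun i _ => ?_
        apply pow_le_pow_left₀ (by positivity)
        rw [div_le_iff₀ hkpos]
        field_simp
        linarith
      linarith)
    simpa using h3

end Pool.Agent.MP_5499e5_ag
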